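import Pool.Agent.ETA.Semi2

/-!
# Return sets of pairs of additive or étale polynomials and their quotients

`f` and `g` are semiconjugate, over some extension field `L`, to `F` and `G` (`f ∘ P = P ∘ F`,
`g ∘ Q = Q ∘ G`, `P`, `Q` not constant). Each of `F` and `G` is an additive polynomial plus a
constant, or an étale polynomial (constant nonzero derivative) whose derivative is not a root of
unity; or both are étale, and one of the two derivatives is not a root of unity. For every point
and every plane curve the return set is the union of finitely many infinite arithmetic progressions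
and finitely many `p`-sets.
-/

set_option autoImplicit false

namespace Pool.Agent.Results.MP_6ac234_nt.EtaleAdditivePairs

theorem result :
    ∀ (K L : Type) [Field K] [Field L] [Algebra K L] (p : ℕ), p.Prime → CharP K p →
      ∀ (f g : Polynomial K) (P Q F G : Polynomial L),
        0 < P.natDegree → 0 < Q.natDegree →
        (f.map (algebraMap K L)).comp P = P.comp F →
        (g.map (algebraMap K L)).comp Q = Q.comp G →
        ((((∀ i : ℕ, i ≠ 0 → F.coeff i ≠ 0 → ∃ j : ℕ, i = p ^ j) ∨
              ∃ a : L, Polynomial.derivative F = Polynomial.C a ∧ a ≠ 0 ∧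
                ∀ m : ℕ, 0 < m → a ^ m ≠ 1) ∧
            ((∀ i : ℕ, i ≠ 0 → G.coeff i ≠ 0 → ∃ j : ℕ, i = p ^ j) ∨
              ∃ b : L, Polynomial.derivative G = Polynomial.C b ∧ b ≠ 0 ∧
                ∀ m : ℕ, 0 < m → b ^ m ≠ 1)) ∨
          ∃ a b : L, Polynomial.derivative F = Polynomial.C a ∧
            Polynomial.derivative G = Polynomial.C b ∧ a ≠ 0 ∧ b ≠ 0 ∧
            ((∀ m : ℕ, 0 < m → a ^ m ≠ 1) ∨ ∀ m : ℕ, 0 < m → b ^ m ≠ 1)) →
        ∀ (γ : K × K) (h : MvPolynomial (Fin 2) K),
          ∃ (S : Finset (ℕ × ℕ)) (T : Finset (ℚ × ℚ × ℕ)),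
            (∀ q ∈ S, 0 < q.1) ∧
            (∀ t ∈ T, ∀ k : ℕ, ∃ n : ℕ, (n : ℚ) = t.1 * (p : ℚ) ^ (t.2.2 * k) + t.2.1) ∧
            {n : ℕ | MvPolynomial.eval
                ![(fun x => Polynomial.eval x f)^[n] γ.1,
                  (fun y => Polynomial.eval y g)^[n] γ.2] h = 0} =
            {n : ℕ | (∃ q ∈ S, ∃ k : ℕ, n = q.1 * k + q.2) ∨
                     (∃ t ∈ T, ∃ k : ℕ,
                        (n : ℚ) = t.1 * (p : ℚ) ^ (t.2.2 * k) + t.2.1)} := by
  intro K L _ _ _ p hp hc f g P Q F G hP hQ hf hg hFG γ h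
  exact Pool.Agent.ETA.semi2 K L p hp hc f g P Q F G hP hQ hf hg hFG γ h

end Pool.Agent.Results.MP_6ac234_nt.EtaleAdditivePairs
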