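import Pool.Agent.Helper11.SP.Fin

/-!
# A gap principle for return sets of split polynomial maps in characteristic `p`

For all polynomials `f`, `g` over a field of characteristic `p`, every point and every plane curve,
the return set is the union of finitely many infinite arithmetic progressions and finitely many
sets in which `n` is at least `(1 + ε) m - c` for all elements `m < n`; one can take `ε = 1` unless
`f` and `g` are both of degree one.
-/

set_option autoImplicit false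

namespace Pool.Agent.Results.MP_6ac234_nt.GapPrinciple

open Pool.Agent.Helper79.DM Pool.Agent.Helper11.SP

theorem result :
    ∀ (K : Type) [Field K] (p : ℕ), p.Prime → CharP K p →
      ∀ (f g : Polynomial K) (γ : K × K) (h : MvPolynomial (Fin 2) K),
        0 < h.totalDegree →
        ∃ (ε c A : ℝ) (S : Finset (ℕ × ℕ)) (r : ℕ) (E : Fin r → Set ℕ),
          0 < ε ∧ (f.natDegree ≠ 1 ∨ g.natDegree ≠ 1 → ε = 1) ∧
          (∀ q ∈ S, 0 < q.1) ∧
          (∀ i, ∀ m ∈ E i, ∀ n ∈ E i, m < n → (1 + ε) * m - c ≤ n) ∧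
          (∀ N : ℕ, 1 ≤ N → (((⋃ i, E i) ∩ Set.Iic N).ncard : ℝ) ≤ A * (1 + Real.log N)) ∧
          (Irreducible h → r = 1 ∧ (S = ∅ ∨ ∀ i, (E i).Finite)) ∧
          {n : ℕ | MvPolynomial.eval
              ![(fun x => Polynomial.eval x f)^[n] γ.1,
                (fun y => Polynomial.eval y g)^[n] γ.2] h = 0} =
          {n : ℕ | (∃ q ∈ S, ∃ k : ℕ, n = q.1 * k + q.2) ∨ ∃ i, n ∈ E i} := by
  classical
  intro K _ p hp hc f g γ h h0
  haveI := hc
  haveI : Fact p.Prime := ⟨hp⟩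
  have hne : h ≠ 0 := by
    rintro rfl
    simp at h0
  -- counting for a finite family
  have hcount : ∀ (ε c : ℝ) (r : ℕ) (E : Fin r → Set ℕ), 0 < ε → 0 ≤ c → (∀ i, Gp ε c (E i)) →
      ∃ A : ℝ, ∀ N : ℕ, 1 ≤ N → (((⋃ i, E i) ∩ Set.Iic N).ncard : ℝ) ≤ A * (1 + Real.log N) := by
    intro ε c r E he hc hE
    choose A hA0 hA using fun i => (hE i).count he hc
    refine ⟨∑ i, A i, fun N hN => ?_⟩
    rw [Set.iUnion_inter, Finset.sum_mul]
    have h1 : (⋃ i, E i ∩ Set.Iic N).ncard ≤ ∑ i, (E i ∩ Set.Iic N).ncard := by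
      have h2 : ∀ s : Finset (Fin r), (⋃ i ∈ s, E i ∩ Set.Iic N).ncard ≤
          ∑ i ∈ s, (E i ∩ Set.Iic N).ncard := by
        intro s
        induction s using Finset.induction_on with
        | empty => simp
        | insert a s ha ih =>
          rw [Finset.sum_insert ha, Finset.set_biUnion_insert]
          exact (Set.ncard_union_le _ _).trans (Nat.add_le_add_left ih _)
      have h3 := h2 Finset.univ
      simpa using h3
    calc ((⋃ i, E i ∩ Set.Iic N).ncard : ℝ) ≤ ((∑ i, (E i ∩ Set.Iic N).ncard : ℕ) : ℝ) := by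
          exact_mod_cast h1
      _ = ∑ i, ((E i ∩ Set.Iic N).ncard : ℝ) := by push_cast; rfl
      _ ≤ _ := Finset.sum_le_sum fun i _ => hA i N hN
  -- eventually periodic sets
  have hEP : ∀ U : Set ℕ, EP U → ∃ (S : Finset (ℕ × ℕ)) (F : Finset ℕ), (∀ q ∈ S, 0 < q.1) ∧
      U = {n : ℕ | (∃ q ∈ S, ∃ k : ℕ, n = q.1 * k + q.2) ∨ n ∈ F} := by
    intro U hU
    obtain ⟨V, hV⟩ := hU.rep
    refine ⟨V.filter fun q => 0 < q.1, (V.filter fun q => q.1 = 0).image Prod.snd,
      fun q hq => (Finset.mem_filter.1 hq).2, ?_⟩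
    rw [hV]
    ext n
    simp only [Set.mem_ofPred_eq, Finset.mem_filter, Finset.mem_image, Prod.exists]
    constructor
    · rintro ⟨a, b, hq, k, hk⟩
      rcases Nat.eq_zero_or_pos a with rfl | ha
      · right
        exact ⟨0, b, ⟨hq, rfl⟩, by rw [hk]; ring⟩
      · left
        exact ⟨a, b, ⟨hq, ha⟩, k, hk⟩
    · rintro (⟨a, b, ⟨hq, ha⟩, k, hk⟩ | ⟨a, b, ⟨hq, ha⟩, hb⟩)
      · exact ⟨a, b, hq, k, hk⟩
      · refine ⟨a, b, hq, 0, ?_⟩
        rw [← hb]
        ring
  -- finite sets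
  have hfin : ∀ F : Finset ℕ, ∃ c : ℝ, 0 ≤ c ∧ Gp 1 c (F : Set ℕ) := by
    intro F
    refine ⟨2 * (F.sup id : ℕ), by positivity, fun m hm n hn _ => ?_⟩
    have h1 : m ≤ F.sup id := Finset.le_sup (f := id) (Finset.mem_coe.1 hm)
    have h2 : (m : ℝ) ≤ (F.sup id : ℕ) := by exact_mod_cast h1
    have h3 : (0 : ℝ) ≤ n := Nat.cast_nonneg n
    linarith
  by_cases hirr : Irreducible h
  · rcases irr p K f g γ.1 γ.2 h hirr with h1 | ⟨ε, c, e1, e2, e3, e4, e5⟩
    · obtain ⟨S, F, hS, hU⟩ := hEP _ h1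
      obtain ⟨c, hc, hF⟩ := hfin F
      obtain ⟨A, hA⟩ := hcount 1 c 1 (fun _ => (F : Set ℕ)) one_pos hc (fun _ => hF)
      refine ⟨1, c, A, S, 1, fun _ => (F : Set ℕ), one_pos, fun _ => rfl, hS,
        fun _ => hF, hA, fun _ => ⟨rfl, Or.inr fun _ => F.finite_toSet⟩, ?_⟩
      refine hU.trans ?_
      ext n
      simp only [Set.mem_ofPred_eq, Finset.mem_coe, exists_const]
    · obtain ⟨A, hA⟩ := hcount ε c 1 (fun _ => ret f g γ.1 γ.2 h) e1 e3 (fun _ => e5)
      refine ⟨ε, c, A, ∅, 1, fun _ => ret f g γ.1 γ.2 h, e1, e4, ?_, fun _ => e5, hA,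
        fun _ => ⟨rfl, Or.inl rfl⟩, ?_⟩
      · intro q hq
        exact absurd hq (Finset.notMem_empty q)
      · ext n
        show n ∈ ret f g γ.1 γ.2 h ↔ _
        constructor
        · intro hn
          exact Or.inr ⟨0, hn⟩
        · intro h2
          rcases h2 with h3 | h3
          · obtain ⟨q, hq, _⟩ := h3
            exact absurd hq (Finset.notMem_empty q)
          · obtain ⟨_, h4⟩ := h3
            exact h4
  · obtain ⟨ε, c, U, r, E, e1, e2, e3, e4, e5, e6, e7⟩ := gen p K f g γ.1 γ.2 h hne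
    obtain ⟨S, F, hS, hU⟩ := hEP _ e5
    obtain ⟨c', hc', hF⟩ := hfin F
    have hE : ∀ i, Gp ε (max c c') ((Fin.cons (F : Set ℕ) E : Fin (r + 1) → Set ℕ) i) := by
      intro i
      refine Fin.cases ?_ (fun k => ?_) i
      · rw [Fin.cons_zero]
        exact hF.mono e2 (le_max_right _ _)
      · rw [Fin.cons_succ]
        exact (e6 k).mono le_rfl (le_max_left _ _)
    obtain ⟨A, hA⟩ := hcount ε (max c c') (r + 1) _ e1 (e3.trans (le_max_left _ _)) hE
    refine ⟨ε, max c c', A, S, r + 1, Fin.cons (F : Set ℕ) E, e1, e4, hS, hE, hA,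
      fun h1 => absurd h1 hirr, ?_⟩
    refine e7.trans ?_
    rw [hU]
    ext n
    simp only [Set.mem_union, Set.mem_iUnion, Set.mem_ofPred_eq]
    constructor
    · rintro ((h2 | h2) | ⟨k, h2⟩)
      · exact Or.inl h2
      · exact Or.inr ⟨0, h2⟩
      · exact Or.inr ⟨k.succ, h2⟩
    · rintro (h2 | ⟨k, h2⟩)
      · exact Or.inl (Or.inl h2)
      · revert h2
        refine Fin.cases ?_ (fun k => ?_) k
        · intro h2; exact Or.inl (Or.inr h2)
        · intro h2; exact Or.inr ⟨k, h2⟩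

end Pool.Agent.Results.MP_6ac234_nt.GapPrinciple
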