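import Pool.Agent.NPC.All

/-!
# Return sets of split polynomial maps in characteristic `p`

For every field `K` of characteristic `p`, all polynomials `f`, `g`, every point `γ` of the plane
and every curve `h = 0`: if one of `f` and `g` is separable (its derivative is not zero) and is not
postcritically finite (some zero of its derivative in an algebraic closure has an infinite forward
orbit) then the return set `{n : h (f^n γ₁, g^n γ₂) = 0}` is the union of finitely many infinite
arithmetic progressions and a finite set.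
-/

set_option autoImplicit false

namespace Pool.Agent.Results.MP_6ac234_nt.NotPostcriticallyFinite

theorem result :
    ∀ (K : Type) [Field K] (p : ℕ), p.Prime → CharP K p →
      ∀ (f g : Polynomial K) (γ : K × K) (h : MvPolynomial (Fin 2) K),
        0 < h.totalDegree →
        ((Polynomial.derivative f ≠ 0 ∧ ∃ c : AlgebraicClosure K,
            Polynomial.aeval c (Polynomial.derivative f) = 0 ∧
            (Set.range fun n : ℕ => (fun z : AlgebraicClosure K =>
              Polynomial.aeval z f)^[n] c).Infinite) ∨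
          (Polynomial.derivative g ≠ 0 ∧ ∃ c : AlgebraicClosure K,
            Polynomial.aeval c (Polynomial.derivative g) = 0 ∧
            (Set.range fun n : ℕ => (fun z : AlgebraicClosure K =>
              Polynomial.aeval z g)^[n] c).Infinite)) →
        ∃ (S : Finset (ℕ × ℕ)) (F : Finset ℕ),
          (∀ q ∈ S, 0 < q.1) ∧
          {n : ℕ | MvPolynomial.eval
              ![(fun x => Polynomial.eval x f)^[n] γ.1,
                (fun y => Polynomial.eval y g)^[n] γ.2] h = 0} =
          {n : ℕ | (∃ q ∈ S, ∃ k : ℕ, n = q.1 * k + q.2) ∨ n ∈ F} := by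
  classical
  intro K _ p hp hc f g γ h h0 H
  haveI := hc
  haveI : Fact p.Prime := ⟨hp⟩
  have hne : h ≠ 0 := by
    rintro rfl
    rw [MvPolynomial.totalDegree_zero] at h0
    exact absurd h0 (lt_irrefl 0)
  obtain ⟨U, hU⟩ := (Pool.Agent.NPC.main p K f g γ.1 γ.2 h hne H).rep
  refine ⟨U.filter fun q => 0 < q.1, (U.filter fun q => q.1 = 0).image Prod.snd,
    fun q hq => (Finset.mem_filter.1 hq).2, ?_⟩
  have hU' : {n : ℕ | MvPolynomial.eval
      ![(fun x => Polynomial.eval x f)^[n] γ.1,
        (fun y => Polynomial.eval y g)^[n] γ.2] h = 0} =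
      {n : ℕ | ∃ q ∈ U, ∃ k : ℕ, n = q.1 * k + q.2} := hU
  rw [hU']
  ext n
  simp only [Set.mem_setOf_eq, Finset.mem_filter, Finset.mem_image, Prod.exists]
  constructor
  · rintro ⟨a, b, hq, k, hk⟩
    rcases Nat.eq_zero_or_pos a with rfl | ha
    · right
      exact ⟨0, b, ⟨hq, rfl⟩, by rw [hk]; ring⟩
    · left
      exact ⟨a, b, ⟨hq, ha⟩, k, hk⟩
  · rintro (⟨a, b, ⟨hq, ha⟩, k, hk⟩ | ⟨a, b, ⟨hq, ha⟩, hb⟩)
    · exact ⟨a, b, hq, k, hk⟩
    · refine ⟨a, b, hq, 0, ?_⟩
      rw [← hb]
      ring

end Pool.Agent.Results.MP_6ac234_nt.NotPostcriticallyFinite
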